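import Pool.Agent.H19.Pal.Defs

set_option autoImplicit false

namespace Pool.Agent.H19.Pal

/-- For `l ≠ []` the hybrid profile `Fl l ∪ (prof x ∩ Ul l)` is linked. -/
theorem linked_hybrid {C : Type} (T : C → C → C → Prop) (x : C) (l : List C) (hl : l ≠ []) :
    Linked T (fun i a b => Fl T l i a b ∨ (prof T x i a b ∧ Ul T l i a b)) := by
  intro i a b j c d h1 h2
  rcases h1 with h1 | ⟨h1, y1, hy1, h1'⟩
  · rcases h2 with h2 | ⟨h2, y2, hy2, h2'⟩
    · obtain ⟨y, hy⟩ := List.exists_mem_of_ne_nil l hl
      exact ⟨y, h1 y hy, h2 y hy⟩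
    · exact ⟨y2, h1 y2 hy2, h2'⟩
  · rcases h2 with h2 | ⟨h2, y2, hy2, h2'⟩
    · exact ⟨y1, h1', h2 y1 hy1⟩
    · exact ⟨x, h1, h2⟩

theorem chain_ind_identity (F U p F' U' H : Prop) (hFU : F → U) (h1 : F' ↔ p ∧ F)
    (h2 : U' ↔ p ∨ U) (h3 : H ↔ F ∨ (p ∧ U)) :
    ind F' + ind U' + ind H = ind F + ind U + ind p := by
  by_cases hF : F
  · have hU : U := hFU hF
    have hU' : U' := h2.2 (Or.inr hU)
    have hH : H := h3.2 (Or.inl hF)
    by_cases hp : p
    · rw [ind_of_true (h1.2 ⟨hp, hF⟩), ind_of_true hU', ind_of_true hH, ind_of_true hF,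
        ind_of_true hU, ind_of_true hp]
    · rw [ind_of_false (fun h => hp (h1.1 h).1), ind_of_true hU', ind_of_true hH, ind_of_true hF,
        ind_of_true hU, ind_of_false hp]
      ring
  · have hF' : ¬ F' := fun h => hF (h1.1 h).2
    by_cases hp : p
    · have hU' : U' := h2.2 (Or.inl hp)
      by_cases hU : U
      · rw [ind_of_false hF', ind_of_true hU', ind_of_true (h3.2 (Or.inr ⟨hp, hU⟩)),
          ind_of_false hF, ind_of_true hU, ind_of_true hp]
      · have hH : ¬ H := fun h => by
          rcases h3.1 h with h | h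
          · exact hF h
          · exact hU h.2
        rw [ind_of_false hF', ind_of_true hU', ind_of_false hH,
          ind_of_false hF, ind_of_false hU, ind_of_true hp]
        ring
    · have hH : ¬ H := fun h => by
        rcases h3.1 h with h | h
        · exact hF h
        · exact hp h.1
      by_cases hU : U
      · rw [ind_of_false hF', ind_of_true (h2.2 (Or.inr hU)), ind_of_false hH,
          ind_of_false hF, ind_of_true hU, ind_of_false hp]
      · have hU' : ¬ U' := fun h => by
          rcases h2.1 h with h | h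
          · exact hp h
          · exact hU h
        rw [ind_of_false hF', ind_of_false hU', ind_of_false hH,
          ind_of_false hF, ind_of_false hU, ind_of_false hp]

/-- pointwise: `[F∧p] + [U∨p] + [F ∨ (p∧U)] = [F] + [U] + [p]` when `F → U`. -/
theorem ms_identity {C : Type} [Fintype C] (T : C → C → C → Prop) (w : C → ℝ) (x : C) (l : List C)
    (hl : l ≠ []) :
    ms w (Fl T (x :: l)) + ms w (Ul T (x :: l)) +
      ms w (fun i a b => Fl T l i a b ∨ (prof T x i a b ∧ Ul T l i a b)) =
    ms w (Fl T l) + ms w (Ul T l) + ms w (prof T x) := by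
  unfold ms md
  simp only [← Finset.sum_add_distrib, ← mul_add]
  refine Finset.sum_congr rfl fun i _ => Finset.sum_congr rfl fun a _ =>
    Finset.sum_congr rfl fun b _ => ?_
  congr 1
  apply chain_ind_identity
  · intro h
    obtain ⟨y, hy⟩ := List.exists_mem_of_ne_nil l hl
    exact ⟨y, hy, h y hy⟩
  · constructor
    · intro h
      exact ⟨h x List.mem_cons_self, fun y hy => h y (List.mem_cons_of_mem x hy)⟩
    · rintro ⟨hp, hF⟩ y hy
      rcases List.mem_cons.1 hy with rfl | hy
      · exact hp
      · exact hF y hy
  · constructor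
    · rintro ⟨y, hy, h⟩
      rcases List.mem_cons.1 hy with rfl | hy
      · exact Or.inl h
      · exact Or.inr ⟨y, hy, h⟩
    · rintro (hp | ⟨y, hy, h⟩)
      · exact ⟨x, List.mem_cons_self, hp⟩
      · exact ⟨y, List.mem_cons_of_mem x hy, h⟩
  · exact Iff.rfl

theorem chain {C : Type} [Fintype C] (T : C → C → C → Prop) (w : C → ℝ) (δ η : ℝ) (hη : 0 ≤ η)
    (hlink : ∀ P : Fin 3 → C → C → Prop, Linked T P → ms w P ≤ 3 * δ + η) (l : List C)
    (hl : l ≠ []) (hk : ∀ x ∈ l, ms w (prof T x) = 3 * δ) :
    6 * δ - l.length * η ≤ ms w (Fl T l) + ms w (Ul T l) := by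
  induction l with
  | nil => exact absurd rfl hl
  | cons x l ih =>
    have hx := hk x List.mem_cons_self
    by_cases hl' : l = []
    · subst hl'
      have h1 : Fl T [x] = prof T x := by
        funext i a b
        apply propext
        constructor
        · intro h; exact h x List.mem_cons_self
        · intro h y hy
          rw [List.mem_singleton] at hy
          rw [hy]; exact h
      have h2 : Ul T [x] = prof T x := by
        funext i a b
        apply propext
        constructor
        · rintro ⟨y, hy, h⟩
          rw [List.mem_singleton] at hy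
          rw [← hy]; exact h
        · intro h; exact ⟨x, List.mem_cons_self, h⟩
      rw [h1, h2, hx]
      simp only [List.length_cons, List.length_nil]
      push_cast
      linarith
    · have h1 := ih hl' (fun y hy => hk y (List.mem_cons_of_mem x hy))
      have h2 := ms_identity T w x l hl'
      have h3 := hlink _ (linked_hybrid T x l hl')
      rw [hx] at h2
      simp only [List.length_cons]
      push_cast
      linarith

end Pool.Agent.H19.Pal
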