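import Mathlib

set_option autoImplicit false

/-!
# Palettes without `K_4^{(3)}` : definitions (helper19, MP_59bda2_co)

Paper proof: team-store `h19_palette_proof.md`.
-/

namespace Pool.Agent.H19.Pal

open scoped Classical

/-- 0/1 indicator of a proposition. -/
noncomputable def ind (p : Prop) : ℝ := if p then 1 else 0

lemma ind_of_true {p : Prop} (h : p) : ind p = 1 := by simp [ind, h]
lemma ind_of_false {p : Prop} (h : ¬ p) : ind p = 0 := by simp [ind, h]
lemma ind_nonneg (p : Prop) : 0 ≤ ind p := by unfold ind; split_ifs <;> norm_num
lemma ind_le_one (p : Prop) : ind p ≤ 1 := by unfold ind; split_ifs <;> norm_num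
lemma ind_mono {p q : Prop} (h : p → q) : ind p ≤ ind q := by
  unfold ind; split_ifs with h1 h2
  · exact le_refl _
  · exact absurd (h h1) h2
  · norm_num
  · exact le_refl _

/-- `T` is `K_4`-free (colours may coincide). -/
def K4Free {C : Type} (T : C → C → C → Prop) : Prop :=
  ∀ a b c d e f, T a b c → T a d e → T b d f → T c e f → False

/-- Density of the palette `T` for the weights `w`. -/
noncomputable def dens {C : Type} [Fintype C] (T : C → C → C → Prop) (w : C → ℝ) : ℝ :=
  ∑ a, ∑ b, ∑ c, w a * w b * w c * ind (T a b c)

/-- probability weights -/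
def IsWt {C : Type} [Fintype C] (w : C → ℝ) : Prop := (∀ c, 0 ≤ w c) ∧ ∑ c, w c = 1

/-- The profile of the colour `x`: a subset of three copies of `C × C`. -/
def prof {C : Type} (T : C → C → C → Prop) (x : C) : Fin 3 → C → C → Prop
  | 0, b, c => T x b c
  | 1, a, c => T a x c
  | 2, a, b => T a b x

/-- measure of the `i`-th part of a profile -/
noncomputable def md {C : Type} [Fintype C] (w : C → ℝ) (P : Fin 3 → C → C → Prop) (i : Fin 3) :
    ℝ := ∑ a, ∑ b, w a * w b * ind (P i a b)

/-- measure of a profile (total mass of everything is 3) -/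
noncomputable def ms {C : Type} [Fintype C] (w : C → ℝ) (P : Fin 3 → C → C → Prop) : ℝ :=
  ∑ i, md w P i

/-- Add one new colour `none` with profile `P`. -/
def ext {C : Type} (T : C → C → C → Prop) (P : Fin 3 → C → C → Prop) :
    Option C → Option C → Option C → Prop
  | some a, some b, some c => T a b c
  | none, some b, some c => P 0 b c
  | some a, none, some c => P 1 a c
  | some a, some b, none => P 2 a b
  | _, _, _ => False

/-- Any two elements of the profile `P` lie in a common profile of an old colour. -/
def Linked {C : Type} (T : C → C → C → Prop) (P : Fin 3 → C → C → Prop) : Prop :=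
  ∀ (i : Fin 3) (a b : C) (j : Fin 3) (c d : C), P i a b → P j c d →
    ∃ x, prof T x i a b ∧ prof T x j c d

/-- intersection of the profiles of the colours in `l` -/
def Fl {C : Type} (T : C → C → C → Prop) (l : List C) : Fin 3 → C → C → Prop :=
  fun i a b => ∀ x ∈ l, prof T x i a b

/-- union of the profiles of the colours in `l` -/
def Ul {C : Type} (T : C → C → C → Prop) (l : List C) : Fin 3 → C → C → Prop :=
  fun i a b => ∃ x ∈ l, prof T x i a b

end Pool.Agent.H19.Pal
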