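import Pool.Agent.H19.Pal.Defs

set_option autoImplicit false

namespace Pool.Agent.H19.Pal

/-- weights on `Option C`: mass `t` on the new colour, the rest scaled by `1-t`. -/
def wext {C : Type} (w : C → ℝ) (t : ℝ) : Option C → ℝ
  | none => t
  | some c => (1 - t) * w c

theorem wext_isWt {C : Type} [Fintype C] {w : C → ℝ} (hw : IsWt w) {t : ℝ} (h0 : 0 ≤ t)
    (h1 : t ≤ 1) : IsWt (wext w t) := by
  constructor
  · intro c
    cases c with
    | none => exact h0
    | some c => exact mul_nonneg (by linarith) (hw.1 c)
  · rw [Fintype.sum_option]
    show t + ∑ c, (1 - t) * w c = 1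
    rw [← Finset.mul_sum, hw.2]
    ring

/-- `Fintype.sum_option` three times. -/
theorem dens_ext {C : Type} [Fintype C] (T : C → C → C → Prop) (P : Fin 3 → C → C → Prop)
    (w : C → ℝ) (t : ℝ) :
    dens (ext T P) (wext w t) = (1 - t) ^ 3 * dens T w + t * (1 - t) ^ 2 * ms w P := by
  have hF : ind False = 0 := ind_of_false not_false
  have e0 : ∀ a b c : C, wext w t (some a) * wext w t (some b) * wext w t (some c) *
      ind (ext T P (some a) (some b) (some c)) =
      (1 - t) ^ 3 * (w a * w b * w c * ind (T a b c)) := by
    intro a b c
    show (1 - t) * w a * ((1 - t) * w b) * ((1 - t) * w c) * ind (T a b c) = _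
    ring
  have e1 : ∀ b c : C, wext w t none * wext w t (some b) * wext w t (some c) *
      ind (ext T P none (some b) (some c)) =
      t * (1 - t) ^ 2 * (w b * w c * ind (P 0 b c)) := by
    intro b c
    show t * ((1 - t) * w b) * ((1 - t) * w c) * ind (P 0 b c) = _
    ring
  have e2 : ∀ a c : C, wext w t (some a) * wext w t none * wext w t (some c) *
      ind (ext T P (some a) none (some c)) =
      t * (1 - t) ^ 2 * (w a * w c * ind (P 1 a c)) := by
    intro a c
    show (1 - t) * w a * t * ((1 - t) * w c) * ind (P 1 a c) = _
    ring
  have e3 : ∀ a b : C, wext w t (some a) * wext w t (some b) * wext w t none *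
      ind (ext T P (some a) (some b) none) =
      t * (1 - t) ^ 2 * (w a * w b * ind (P 2 a b)) := by
    intro a b
    show (1 - t) * w a * ((1 - t) * w b) * t * ind (P 2 a b) = _
    ring
  have z0 : wext w t none * wext w t none * wext w t none * ind (ext T P none none none) = 0 := by
    show _ * ind False = 0
    rw [hF, mul_zero]
  have z1 : ∀ c : C, wext w t (some c) * wext w t none * wext w t none *
      ind (ext T P (some c) none none) = 0 := by
    intro c
    show _ * ind False = 0
    rw [hF, mul_zero]
  have z2 : ∀ c : C, wext w t none * wext w t (some c) * wext w t none *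
      ind (ext T P none (some c) none) = 0 := by
    intro c
    show _ * ind False = 0
    rw [hF, mul_zero]
  have z3 : ∀ c : C, wext w t none * wext w t none * wext w t (some c) *
      ind (ext T P none none (some c)) = 0 := by
    intro c
    show _ * ind False = 0
    rw [hF, mul_zero]
  unfold dens ms md
  simp only [Fintype.sum_option, e0, e1, e2, e3, z0, z1, z2, z3, Finset.sum_const_zero, zero_add,
    Fin.sum_univ_three, Finset.sum_add_distrib, ← Finset.mul_sum]
  ring

end Pool.Agent.H19.Pal
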