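import Pool.Agent.H19.Pal.Defs

set_option autoImplicit false

namespace Pool.Agent.H19.Pal

open scoped Classical

/-- pair weight -/
noncomputable def vw {C : Type} (w : C → ℝ) (p : C × C) : ℝ := w p.1 * w p.2

lemma vw_sum {C : Type} [Fintype C] (w : C → ℝ) (hw : IsWt w) : ∑ p, vw w p = 1 := by
  unfold vw
  rw [Fintype.sum_prod_type]
  simp only
  rw [← Finset.sum_mul_sum]
  rw [hw.2]; norm_num

lemma vw_nonneg {C : Type} [Fintype C] (w : C → ℝ) (hw : IsWt w) (p : C × C) : 0 ≤ vw w p :=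
  mul_nonneg (hw.1 _) (hw.1 _)

/-- components of a pair -/
def comp {C : Type} (s : Bool) (p : C × C) : C := if s then p.1 else p.2

lemma comp_pos {C : Type} [Fintype C] (w : C → ℝ) (hw : IsWt w) (p : C × C) (hp : vw w p ≠ 0)
    (s : Bool) : 0 < w (comp s p) := by
  unfold vw at hp
  have h1 : w p.1 ≠ 0 := left_ne_zero_of_mul hp
  have h2 : w p.2 ≠ 0 := right_ne_zero_of_mul hp
  cases s
  · exact lt_of_le_of_ne (hw.1 _) (Ne.symm h2)
  · exact lt_of_le_of_ne (hw.1 _) (Ne.symm h1)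

lemma sum_not_le {C : Type} [Fintype C] (w : C → ℝ) (hw : IsWt w) (ρ : ℝ)
    (g : C → C → Prop) (hg : ρ ≤ ∑ a, ∑ b, w a * w b * ind (g a b)) :
    ∑ p : C × C, vw w p * ind (¬ g p.1 p.2) ≤ 1 - ρ := by
  have h1 : ∀ p : C × C, vw w p * ind (¬ g p.1 p.2) = vw w p - w p.1 * w p.2 * ind (g p.1 p.2) := by
    intro p
    unfold vw ind
    by_cases h : g p.1 p.2 <;> simp [h]
  rw [Finset.sum_congr rfl (fun p _ => h1 p), Finset.sum_sub_distrib, vw_sum w hw]
  have h2 : ∑ p : C × C, w p.1 * w p.2 * ind (g p.1 p.2) = ∑ a, ∑ b, w a * w b * ind (g a b) := by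
    rw [Fintype.sum_prod_type]
  rw [h2]; linarith

/-- bad event -/
def bad {C : Type} {m : ℕ} (G : Fin 3 → C → C → C → Prop) (r : Fin m) (s : Bool) (i : Fin 3)
    (ω : Fin m → C × C) : Prop := ∀ q, q ≠ r → ¬ G i (comp s (ω r)) (ω q).1 (ω q).2

lemma bad_sum {C : Type} [Fintype C] (w : C → ℝ) (hw : IsWt w) (ρ : ℝ) (m : ℕ)
    (G : Fin 3 → C → C → C → Prop)
    (hG : ∀ i x, 0 < w x → ρ ≤ ∑ a, ∑ b, w a * w b * ind (G i x a b))
    (r : Fin m) (s : Bool) (i : Fin 3) :
    ∑ ω : Fin m → C × C, (∏ q, vw w (ω q)) * ind (bad G r s i ω) ≤ (1 - ρ) ^ (m - 1) := by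
  have key : ∀ ω : Fin m → C × C, (∏ q, vw w (ω q)) * ind (bad G r s i ω)
      = ∑ p : C × C, ∏ q, (vw w (ω q) *
        (if q = r then ind (ω q = p) else ind (¬ G i (comp s p) (ω q).1 (ω q).2))) := by
    intro ω
    rw [Finset.sum_eq_single (ω r)]
    · rw [Finset.prod_mul_distrib]
      congr 1
      by_cases hb : bad G r s i ω
      · rw [ind_of_true hb]
        symm
        apply Finset.prod_eq_one
        intro q _
        by_cases hq : q = r
        · subst hq; rw [if_pos rfl]; exact ind_of_true rfl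
        · rw [if_neg hq]; exact ind_of_true (hb q hq)
      · rw [ind_of_false hb]
        symm
        unfold bad at hb
        push Not at hb
        obtain ⟨q, hq, hq2⟩ := hb
        apply Finset.prod_eq_zero (Finset.mem_univ q)
        rw [if_neg hq]
        exact ind_of_false (not_not.mpr hq2)
    · intro p _ hp
      apply Finset.prod_eq_zero (Finset.mem_univ r)
      rw [if_pos rfl, ind_of_false (fun h => hp h.symm), mul_zero]
    · intro h; exact absurd (Finset.mem_univ _) h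
  rw [Finset.sum_congr rfl (fun ω _ => key ω), Finset.sum_comm]
  have h2 : ∀ p : C × C, (∑ ω : Fin m → C × C, ∏ q, (vw w (ω q) *
        (if q = r then ind (ω q = p) else ind (¬ G i (comp s p) (ω q).1 (ω q).2))))
      ≤ vw w p * (1 - ρ) ^ (m - 1) := by
    intro p
    have h3 : (∑ ω : Fin m → C × C, ∏ q, (vw w (ω q) *
        (if q = r then ind (ω q = p) else ind (¬ G i (comp s p) (ω q).1 (ω q).2))))
      = ∏ q : Fin m, ∑ p' : C × C, (vw w p' *
        (if q = r then ind (p' = p) else ind (¬ G i (comp s p) p'.1 p'.2))) := by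
      rw [Finset.prod_univ_sum]
      rw [Fintype.piFinset_univ]
    rw [h3, ← Finset.mul_prod_erase Finset.univ _ (Finset.mem_univ r)]
    have h4 : (∑ p' : C × C, (vw w p' *
        (if r = r then ind (p' = p) else ind (¬ G i (comp s p) p'.1 p'.2)))) = vw w p := by
      simp only [if_true]
      rw [Finset.sum_eq_single p]
      · rw [ind_of_true rfl, mul_one]
      · intro b _ hb; rw [ind_of_false hb, mul_zero]
      · intro h; exact absurd (Finset.mem_univ _) h
    rw [h4]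
    by_cases hp0 : vw w p = 0
    · rw [hp0, zero_mul, zero_mul]
    apply mul_le_mul_of_nonneg_left _ (vw_nonneg w hw p)
    have h5 : ∀ q ∈ Finset.univ.erase r, (∑ p' : C × C, (vw w p' *
        (if q = r then ind (p' = p) else ind (¬ G i (comp s p) p'.1 p'.2)))) ≤ 1 - ρ := by
      intro q hq
      have hq' : q ≠ r := Finset.ne_of_mem_erase hq
      simp only [if_neg hq']
      exact sum_not_le w hw ρ _ (hG i _ (comp_pos w hw p hp0 s))
    calc _ ≤ ∏ q ∈ Finset.univ.erase r, (1 - ρ) := by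
          apply Finset.prod_le_prod _ h5
          intro q hq
          have hq' : q ≠ r := Finset.ne_of_mem_erase hq
          simp only [if_neg hq']
          exact Finset.sum_nonneg (fun p' _ => mul_nonneg (vw_nonneg w hw p') (ind_nonneg _))
      _ = (1 - ρ) ^ (m - 1) := by
          rw [Finset.prod_const, Finset.card_erase_of_mem (Finset.mem_univ _), Finset.card_univ,
            Fintype.card_fin]
  calc _ ≤ ∑ p : C × C, vw w p * (1 - ρ) ^ (m - 1) := Finset.sum_le_sum (fun p _ => h2 p)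
    _ = (1 - ρ) ^ (m - 1) := by rw [← Finset.sum_mul, vw_sum w hw, one_mul]

/-- Random family of `2m` colours. `Ω = Fin m → C × C` with product weights. For each `r : Fin m`, each of the
two components `y` of `ω r` and each `i : Fin 3` the event `∀ q ≠ r, ¬ G i y (ω q).1 (ω q).2` has probability
`≤ (1-ρ)^(m-1)`; union bound over `6 m` events; also all components have positive weight (choose `ω` with
positive product weight). -/
theorem exists_family {C : Type} [Fintype C] (w : C → ℝ) (hw : IsWt w) (ρ : ℝ) (hρ : 0 < ρ)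
    (hρ1 : ρ ≤ 1) (m : ℕ) (hm : 6 * (m : ℝ) * (1 - ρ) ^ (m - 1) < 1)
    (G : Fin 3 → C → C → C → Prop)
    (hG : ∀ i x, 0 < w x → ρ ≤ ∑ a, ∑ b, w a * w b * ind (G i x a b)) :
    ∃ l : List C, l.length = 2 * m ∧ (∀ x ∈ l, 0 < w x) ∧
      ∀ x ∈ l, ∀ i, ∃ a ∈ l, ∃ b ∈ l, G i x a b := by
  have htot : ∑ ω : Fin m → C × C, (∏ q, vw w (ω q)) = 1 := by
    have := Finset.prod_univ_sum (fun _ : Fin m => (Finset.univ : Finset (C × C)))
      (fun _ p => vw w p)
    rw [Fintype.piFinset_univ] at this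
    rw [← this]
    simp [vw_sum w hw]
  have hlt : ∑ ω : Fin m → C × C, (∏ q, vw w (ω q)) *
      (∑ r : Fin m, ∑ s : Bool, ∑ i : Fin 3, ind (bad G r s i ω))
      < ∑ ω : Fin m → C × C, (∏ q, vw w (ω q)) := by
    rw [htot]
    have h1 : ∑ ω : Fin m → C × C, (∏ q, vw w (ω q)) *
      (∑ r : Fin m, ∑ s : Bool, ∑ i : Fin 3, ind (bad G r s i ω))
      = ∑ r : Fin m, ∑ s : Bool, ∑ i : Fin 3, ∑ ω : Fin m → C × C,
        (∏ q, vw w (ω q)) * ind (bad G r s i ω) := by
      simp_rw [Finset.mul_sum]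
      rw [Finset.sum_comm]
      refine Finset.sum_congr rfl (fun r _ => ?_)
      rw [Finset.sum_comm]
      refine Finset.sum_congr rfl (fun s _ => ?_)
      rw [Finset.sum_comm]
    rw [h1]
    calc _ ≤ ∑ r : Fin m, ∑ s : Bool, ∑ i : Fin 3, (1 - ρ) ^ (m - 1) :=
          Finset.sum_le_sum (fun r _ => Finset.sum_le_sum (fun s _ =>
            Finset.sum_le_sum (fun i _ => bad_sum w hw ρ m G hG r s i)))
      _ = 6 * (m : ℝ) * (1 - ρ) ^ (m - 1) := by
          simp only [Finset.sum_const, Finset.card_univ, Fintype.card_fin, Fintype.card_bool,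
            nsmul_eq_mul]
          push_cast; ring
      _ < 1 := hm
  obtain ⟨ω, _, hω⟩ := Finset.exists_lt_of_sum_lt hlt
  have hWnn : 0 ≤ ∏ q, vw w (ω q) := Finset.prod_nonneg (fun q _ => vw_nonneg w hw _)
  have hW0 : ∏ q, vw w (ω q) ≠ 0 := by
    intro h0
    rw [h0, zero_mul] at hω
    exact lt_irrefl _ hω
  have hWpos : 0 < ∏ q, vw w (ω q) := lt_of_le_of_ne hWnn (Ne.symm hW0)
  have hsum : (∑ r : Fin m, ∑ s : Bool, ∑ i : Fin 3, ind (bad G r s i ω)) < 1 := by
    by_contra hcon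
    push Not at hcon
    have := mul_le_mul_of_nonneg_left hcon hWnn
    linarith
  have hnb : ∀ r s i, ¬ bad G r s i ω := by
    intro r s i hb
    have h1 : ind (bad G r s i ω) ≤ ∑ r : Fin m, ∑ s : Bool, ∑ i : Fin 3, ind (bad G r s i ω) := by
      calc ind (bad G r s i ω) ≤ ∑ i : Fin 3, ind (bad G r s i ω) :=
            Finset.single_le_sum (f := fun i => ind (bad G r s i ω))
              (fun j _ => ind_nonneg _) (Finset.mem_univ i)
        _ ≤ ∑ s : Bool, ∑ i : Fin 3, ind (bad G r s i ω) :=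
            Finset.single_le_sum (f := fun s => ∑ i : Fin 3, ind (bad G r s i ω))
              (fun j _ => Finset.sum_nonneg (fun _ _ => ind_nonneg _)) (Finset.mem_univ s)
        _ ≤ _ :=
            Finset.single_le_sum (f := fun r => ∑ s : Bool, ∑ i : Fin 3, ind (bad G r s i ω))
              (fun j _ => Finset.sum_nonneg (fun _ _ => Finset.sum_nonneg
                (fun _ _ => ind_nonneg _))) (Finset.mem_univ r)
    rw [ind_of_true hb] at h1
    linarith
  have hne : ∀ q, vw w (ω q) ≠ 0 := fun q hq => hW0 (Finset.prod_eq_zero (Finset.mem_univ q) hq)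
  refine ⟨List.ofFn (fun r => comp true (ω r)) ++ List.ofFn (fun r => comp false (ω r)), ?_, ?_, ?_⟩
  · simp; ring
  · intro x hx
    rw [List.mem_append, List.mem_ofFn, List.mem_ofFn] at hx
    rcases hx with ⟨r, rfl⟩ | ⟨r, rfl⟩
    · exact comp_pos w hw _ (hne r) true
    · exact comp_pos w hw _ (hne r) false
  · intro x hx i
    have hx' : ∃ r s, x = comp s (ω r) := by
      rw [List.mem_append, List.mem_ofFn, List.mem_ofFn] at hx
      rcases hx with ⟨r, rfl⟩ | ⟨r, rfl⟩
      · exact ⟨r, true, rfl⟩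
      · exact ⟨r, false, rfl⟩
    obtain ⟨r, s, rfl⟩ := hx'
    have hb := hnb r s i
    unfold bad at hb
    push Not at hb
    obtain ⟨q, _, hG2⟩ := hb
    refine ⟨(ω q).1, ?_, (ω q).2, ?_, hG2⟩
    · rw [List.mem_append, List.mem_ofFn, List.mem_ofFn]
      exact Or.inl ⟨q, rfl⟩
    · rw [List.mem_append, List.mem_ofFn, List.mem_ofFn]
      exact Or.inr ⟨q, rfl⟩

/-- the choice of `m` -/
theorem exists_m (ρ : ℝ) (hρ : 0 < ρ) (hρ1 : ρ ≤ 1) :
    ∃ m : ℕ, 1 ≤ m ∧ 6 * (m : ℝ) * (1 - ρ) ^ (m - 1) < 1 := by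
  have h0 : 0 ≤ 1 - ρ := by linarith
  have h1 : 1 - ρ < 1 := by linarith
  have t1 := tendsto_self_mul_const_pow_of_lt_one h0 h1
  have t2 := tendsto_pow_atTop_nhds_zero_of_lt_one h0 h1
  have t3 : Filter.Tendsto (fun n : ℕ => 6 * ((n : ℝ) * (1 - ρ) ^ n + (1 - ρ) ^ n)) Filter.atTop
      (nhds (6 * (0 + 0))) := (t1.add t2).const_mul 6
  have t4 : ∀ᶠ n : ℕ in Filter.atTop, 6 * ((n : ℝ) * (1 - ρ) ^ n + (1 - ρ) ^ n) < 1 :=
    t3.eventually_lt_const (by norm_num)
  obtain ⟨n, hn⟩ := t4.exists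
  refine ⟨n + 1, by omega, ?_⟩
  have : 6 * ((n + 1 : ℕ) : ℝ) * (1 - ρ) ^ (n + 1 - 1)
      = 6 * ((n : ℝ) * (1 - ρ) ^ n + (1 - ρ) ^ n) := by
    rw [Nat.add_sub_cancel]; push_cast; ring
  rw [this]; exact hn

end Pool.Agent.H19.Pal
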