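import Pool.Agent.H19.Pal.Defs

set_option autoImplicit false

namespace Pool.Agent.H19.Pal

theorem friend_half {W : Type} [Fintype W] (v : W → ℝ) (hv : ∀ u, 0 ≤ v u) (R : W → W → Prop) :
    ∑ a, ∑ y, v a * v y * ind (R a y) * ((∑ u, v u * ind (R u y)) / (∑ z, v z * ind (R a z))) ≤
      ∑ a, ∑ b, v a * v b * ind (∃ y, R a y ∧ R b y) := by
  refine Finset.sum_le_sum fun a _ => ?_
  obtain ⟨r, hr⟩ : ∃ r : ℝ, r = ∑ z, v z * ind (R a z) := ⟨_, rfl⟩
  obtain ⟨N, hN⟩ : ∃ N : ℝ, N = ∑ b, v b * ind (∃ y, R a y ∧ R b y) := ⟨_, rfl⟩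
  have hr0 : 0 ≤ r := by
    rw [hr]
    exact Finset.sum_nonneg fun z _ => mul_nonneg (hv z) (ind_nonneg _)
  have hN0 : 0 ≤ N := by
    rw [hN]
    exact Finset.sum_nonneg fun z _ => mul_nonneg (hv z) (ind_nonneg _)
  have e1 : ∑ y, v a * v y * ind (R a y) *
      ((∑ u, v u * ind (R u y)) / (∑ z, v z * ind (R a z))) =
      v a * ((∑ y, v y * ind (R a y) * (∑ u, v u * ind (R u y))) / r) := by
    rw [← hr, Finset.sum_div, Finset.mul_sum]
    refine Finset.sum_congr rfl fun y _ => ?_
    ring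
  have e2 : ∑ b, v a * v b * ind (∃ y, R a y ∧ R b y) = v a * N := by
    rw [hN, Finset.mul_sum]
    refine Finset.sum_congr rfl fun y _ => ?_
    ring
  rw [e1, e2]
  refine mul_le_mul_of_nonneg_left ?_ (hv a)
  rcases hr0.eq_or_lt with h | h
  · rw [← h, div_zero]
    exact hN0
  · rw [div_le_iff₀ h]
    have e3 : N * r = ∑ y, v y * ind (R a y) * N := by
      rw [hr, Finset.mul_sum]
      refine Finset.sum_congr rfl fun y _ => ?_
      ring
    rw [e3]
    refine Finset.sum_le_sum fun y _ => ?_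
    by_cases hy : R a y
    · refine mul_le_mul_of_nonneg_left ?_ (mul_nonneg (hv y) (ind_nonneg _))
      rw [hN]
      refine Finset.sum_le_sum fun u _ => ?_
      exact mul_le_mul_of_nonneg_left (ind_mono fun hu => ⟨y, hy, hu⟩) (hv u)
    · rw [ind_of_false hy]
      simp

/-- Friendship paradox: `|R R^T| + |R^T R| ≥ 2 |R|` for every relation `R` and weights `v ≥ 0`.
Proof: `s(z) = Σ_u v_u [R u z]`, `r(u) = Σ_z v_z [R u z]`; `Σ_z v_z [∃ y, R u y ∧ R z y] ≥ s(y)` for every
`y` with `R u y`; average over `y ∈ R(u)`; get `|RR^T| ≥ Σ_{R u y} v_u v_y s(y)/r(u)`, same for `R^T R`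
with `r(u)/s(y)`; `t+1/t ≥ 2`. -/
theorem friend {W : Type} [Fintype W] (v : W → ℝ) (hv : ∀ u, 0 ≤ v u) (R : W → W → Prop) :
    2 * ∑ a, ∑ b, v a * v b * ind (R a b) ≤
      ∑ a, ∑ b, v a * v b * ind (∃ y, R a y ∧ R b y) +
      ∑ a, ∑ b, v a * v b * ind (∃ y, R y a ∧ R y b) := by
  have h1 := friend_half v hv R
  have h2 := friend_half v hv (fun a b => R b a)
  rw [Finset.sum_comm (s := Finset.univ) (t := Finset.univ) (f := fun a y =>
    v a * v y * ind (R y a) * ((∑ u, v u * ind (R y u)) / (∑ z, v z * ind (R z a))))] at h2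
  refine le_trans ?_ (add_le_add h1 h2)
  rw [Finset.mul_sum, ← Finset.sum_add_distrib]
  refine Finset.sum_le_sum fun a _ => ?_
  rw [Finset.mul_sum, ← Finset.sum_add_distrib]
  refine Finset.sum_le_sum fun b _ => ?_
  by_cases hab : R a b
  · rcases (hv a).eq_or_lt with h | h
    · rw [← h]
      simp
    · rcases (hv b).eq_or_lt with h' | h'
      · rw [← h']
        simp
      · have hs : 0 < ∑ u, v u * ind (R u b) := by
          have h3 : v a * ind (R a b) ≤ ∑ u, v u * ind (R u b) :=
            Finset.single_le_sum (f := fun u => v u * ind (R u b))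
              (fun u _ => mul_nonneg (hv u) (ind_nonneg _)) (Finset.mem_univ a)
          rw [ind_of_true hab] at h3
          linarith
        have hr : 0 < ∑ z, v z * ind (R a z) := by
          have h3 : v b * ind (R a b) ≤ ∑ z, v z * ind (R a z) :=
            Finset.single_le_sum (f := fun z => v z * ind (R a z))
              (fun u _ => mul_nonneg (hv u) (ind_nonneg _)) (Finset.mem_univ b)
          rw [ind_of_true hab] at h3
          linarith
        obtain ⟨s, hs'⟩ : ∃ s : ℝ, s = ∑ u, v u * ind (R u b) := ⟨_, rfl⟩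
        obtain ⟨r, hr'⟩ : ∃ r : ℝ, r = ∑ z, v z * ind (R a z) := ⟨_, rfl⟩
        rw [← hs'] at hs
        rw [← hr'] at hr
        rw [← hs', ← hr', ind_of_true hab]
        have h4 : 2 ≤ s / r + r / s := by
          have h5 : s / r + r / s - 2 = (s - r) ^ 2 / (s * r) := by
            field_simp
            ring
          have h6 : 0 ≤ (s - r) ^ 2 / (s * r) := by positivity
          linarith
        have h7 : 0 ≤ v a * v b := (mul_pos h h').le
        have h8 := mul_le_mul_of_nonneg_left h4 h7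
        have h9 : v a * v b * 1 * (s / r) + v b * v a * 1 * (r / s) =
            v a * v b * (s / r + r / s) := by ring
        rw [h9]
        linarith
  · rw [ind_of_false hab]
    simp

end Pool.Agent.H19.Pal
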