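import Pool.Agent.H19.Pal.Defs
import Pool.Agent.H19.Pal.Friend

set_option autoImplicit false

namespace Pool.Agent.H19.Pal

/-- size of a relation -/
noncomputable def fe_sz {W : Type} [Fintype W] (v : W → ℝ) (R : W → W → Prop) : ℝ :=
  ∑ a, ∑ b, v a * v b * ind (R a b)

theorem fe_sz_mono {W : Type} [Fintype W] (v : W → ℝ) (hv : ∀ u, 0 ≤ v u) (R S : W → W → Prop)
    (h : ∀ a b, R a b → S a b) : fe_sz v R ≤ fe_sz v S := by
  unfold fe_sz
  apply Finset.sum_le_sum
  intro a _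
  apply Finset.sum_le_sum
  intro b _
  exact mul_le_mul_of_nonneg_left (ind_mono (h a b)) (mul_nonneg (hv a) (hv b))

theorem fe_sz_swap {W : Type} [Fintype W] (v : W → ℝ) (R : W → W → Prop) :
    fe_sz v (fun a b => R b a) = fe_sz v R := by
  unfold fe_sz
  rw [Finset.sum_comm]
  apply Finset.sum_congr rfl
  intro a _
  apply Finset.sum_congr rfl
  intro b _
  ring

/-- `2 |R| ≤ 2 |E|` if `R R^T` and `R^T R` are contained in `E`. -/
theorem fe_friend {W : Type} [Fintype W] (v : W → ℝ) (hv : ∀ u, 0 ≤ v u) (R E : W → W → Prop)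
    (h1 : ∀ a b y, R a y → R b y → E a b) (h2 : ∀ a b y, R y a → R y b → E a b) :
    fe_sz v R ≤ fe_sz v E := by
  have h := friend v hv R
  have e1 : ∑ a, ∑ b, v a * v b * ind (∃ y, R a y ∧ R b y) ≤ fe_sz v E :=
    fe_sz_mono v hv (fun a b => ∃ y, R a y ∧ R b y) E (by
      rintro a b ⟨y, hy1, hy2⟩
      exact h1 a b y hy1 hy2)
  have e2 : ∑ a, ∑ b, v a * v b * ind (∃ y, R y a ∧ R y b) ≤ fe_sz v E :=
    fe_sz_mono v hv (fun a b => ∃ y, R y a ∧ R y b) E (by
      rintro a b ⟨y, hy1, hy2⟩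
      exact h2 a b y hy1 hy2)
  have e3 : fe_sz v R = ∑ a, ∑ b, v a * v b * ind (R a b) := rfl
  linarith

/-- the block relation -/
def fe_L {C : Type} (D B A : C → C → Prop) : Bool × C → Bool × C → Prop
  | (false, a), (false, b) => D a b
  | (false, a), (true, b) => B a b
  | (true, a), (false, b) => B b a
  | (true, a), (true, b) => A a b

theorem fe_sz_L {C : Type} [Fintype C] (w : C → ℝ) (D B A : C → C → Prop) :
    fe_sz (fun z : Bool × C => w z.2) (fe_L D B A) = fe_sz w D + 2 * fe_sz w B + fe_sz w A := by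
  have h1 : fe_sz (fun z : Bool × C => w z.2) (fe_L D B A) =
      fe_sz w A + fe_sz w (fun a b => B b a) + (fe_sz w B + fe_sz w D) := by
    unfold fe_sz
    rw [Fintype.sum_prod_type, Fintype.sum_bool]
    have e1 : (∑ y, ∑ b : Bool × C, w (true, y).2 * w b.2 * ind (fe_L D B A (true, y) b)) =
        (∑ a, ∑ b, w a * w b * ind (A a b)) + ∑ a, ∑ b, w a * w b * ind (B b a) := by
      rw [← Finset.sum_add_distrib]
      apply Finset.sum_congr rfl
      intro a _
      rw [Fintype.sum_prod_type, Fintype.sum_bool]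
      rfl
    have e2 : (∑ y, ∑ b : Bool × C, w (false, y).2 * w b.2 * ind (fe_L D B A (false, y) b)) =
        (∑ a, ∑ b, w a * w b * ind (B a b)) + ∑ a, ∑ b, w a * w b * ind (D a b) := by
      rw [← Finset.sum_add_distrib]
      apply Finset.sum_congr rfl
      intro a _
      rw [Fintype.sum_prod_type, Fintype.sum_bool]
      rfl
    rw [e1, e2]
  rw [h1, fe_sz_swap w B]
  ring

theorem fe_ms {C : Type} [Fintype C] (w : C → ℝ) (P : Fin 3 → C → C → Prop) :
    ms w P = fe_sz w (P 0) + fe_sz w (P 1) + fe_sz w (P 2) := by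
  unfold ms
  rw [Fin.sum_univ_three]
  rfl

/-- Section 3 of the paper proof. `Φ` self-supporting: every `x ∈ Φ` occurs in each position of a triple
of `T` with the other two colours in `Φ`.  Apply `friend` to `W = Bool × C`, `v (b,c) = w c`, and the
relation `L`: `L (0,a) (0,b) = D a b`, `L (0,a) (1,b) = B a b`, `L (1,a) (0,b) = B b a`,
`L (1,a) (1,b) = A a b`, where `A a b = ∀ x, Φ x → T a b x`, `B a c = ∀ x, Φ x → T a x c`,
`D b c = ∀ x, Φ x → T x b c`; the ten facts give `L L^T, L^T L ⊆ E`; apply `friend` also to `D` and to `A`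
alone; add up. -/
theorem full_le_empty {C : Type} [Fintype C] {T : C → C → C → Prop} (hT : K4Free T) (w : C → ℝ)
    (hw : ∀ c, 0 ≤ w c) (Φ : C → Prop)
    (R1 : ∀ x, Φ x → ∃ y z, Φ y ∧ Φ z ∧ T x y z)
    (R2 : ∀ x, Φ x → ∃ y z, Φ y ∧ Φ z ∧ T y x z)
    (R3 : ∀ x, Φ x → ∃ y z, Φ y ∧ Φ z ∧ T y z x) :
    ms w (fun i a b => ∀ x, Φ x → prof T x i a b) ≤
      ms w (fun i a b => ∀ x, Φ x → ¬ prof T x i a b) := by
  obtain ⟨A, hA⟩ : ∃ A : C → C → Prop, A = fun a b => ∀ x, Φ x → T a b x := ⟨_, rfl⟩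
  obtain ⟨B, hB⟩ : ∃ B : C → C → Prop, B = fun a c => ∀ x, Φ x → T a x c := ⟨_, rfl⟩
  obtain ⟨D, hD⟩ : ∃ D : C → C → Prop, D = fun b c => ∀ x, Φ x → T x b c := ⟨_, rfl⟩
  obtain ⟨EA, hEA⟩ : ∃ EA : C → C → Prop, EA = fun a b => ∀ x, Φ x → ¬ T a b x := ⟨_, rfl⟩
  obtain ⟨EB, hEB⟩ : ∃ EB : C → C → Prop, EB = fun a c => ∀ x, Φ x → ¬ T a x c := ⟨_, rfl⟩
  obtain ⟨ED, hED⟩ : ∃ ED : C → C → Prop, ED = fun b c => ∀ x, Φ x → ¬ T x b c := ⟨_, rfl⟩
  have hAx : ∀ {a b x}, A a b → Φ x → T a b x := by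
    intro a b x h hx; rw [hA] at h; exact h x hx
  have hBx : ∀ {a c x}, B a c → Φ x → T a x c := by
    intro a c x h hx; rw [hB] at h; exact h x hx
  have hDx : ∀ {b c x}, D b c → Φ x → T x b c := by
    intro b c x h hx; rw [hD] at h; exact h x hx
  -- the ten facts
  have f1 : ∀ u v z, A z u → A z v → EA u v := by
    intro u v z h1 h2
    rw [hEA]
    intro f hf h
    obtain ⟨c, e, hc, he, hcef⟩ := R3 f hf
    exact hT z u c v e f (hAx h1 hc) (hAx h2 he) h hcef
  have f2 : ∀ u v z, A u z → A v z → EA u v := by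
    intro u v z h1 h2
    rw [hEA]
    intro c hc h
    obtain ⟨e, f, he, hf, hcef⟩ := R1 c hc
    exact hT u v c z e f h (hAx h1 he) (hAx h2 hf) hcef
  have f3 : ∀ u v z, B z u → B z v → EA u v := by
    intro u v z h1 h2
    rw [hEA]
    intro f hf h
    obtain ⟨b, d, hb, hd, hbdf⟩ := R3 f hf
    exact hT z b u d v f (hBx h1 hb) (hBx h2 hd) hbdf h
  have f4 : ∀ u v z, B u z → B v z → ED u v := by
    intro u v z h1 h2
    rw [hED]
    intro a ha h
    obtain ⟨d, e, hd, he, hade⟩ := R1 a ha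
    exact hT a u v d e z h hade (hBx h1 hd) (hBx h2 he)
  have f5 : ∀ u v z, D z u → D z v → ED u v := by
    intro u v z h1 h2
    rw [hED]
    intro c hc h
    obtain ⟨x, y, hx, hy, hxyc⟩ := R3 c hc
    exact hT x y c z u v hxyc (hDx h1 hx) (hDx h2 hy) h
  have f6 : ∀ u v z, D u z → D v z → ED u v := by
    intro u v z h1 h2
    rw [hED]
    intro a ha h
    obtain ⟨x, y, hx, hy, haxy⟩ := R1 a ha
    exact hT a x y u v z haxy h (hDx h1 hx) (hDx h2 hy)
  have f7 : ∀ u v z, B u z → A z v → EB u v := by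
    intro u v z h1 h2
    rw [hEB]
    intro y hy h
    obtain ⟨x, f, hx, hf, hxyf⟩ := R2 y hy
    exact hT u x z y v f (hBx h1 hx) h hxyf (hAx h2 hf)
  have f8 : ∀ u v z, B u z → A v z → EB u v := by
    intro u v z h1 h2
    rw [hEB]
    intro y hy h
    obtain ⟨d, f, hd, hf, hydf⟩ := R1 y hy
    exact hT u y v d z f h (hBx h1 hd) hydf (hAx h2 hf)
  have f9 : ∀ u v z, D u z → B z v → EB u v := by
    intro u v z h1 h2
    rw [hEB]
    intro y hy h
    obtain ⟨x, x', hx, hx', hxyx⟩ := R2 y hy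
    exact hT x u z y x' v (hDx h1 hx) hxyx h (hBx h2 hx')
  have f10 : ∀ u v z, D z u → B z v → EB u v := by
    intro u v z h1 h2
    rw [hEB]
    intro y hy h
    obtain ⟨x, d, hx, hd, hxdy⟩ := R3 y hy
    exact hT x z u d y v (hDx h1 hx) hxdy (hBx h2 hd) h
  have i2 : fe_sz w D ≤ fe_sz w ED := fe_friend w hw D ED f6 f5
  have i3 : fe_sz w A ≤ fe_sz w EA := fe_friend w hw A EA f2 f1
  have i1 : fe_sz (fun z : Bool × C => w z.2) (fe_L D B A) ≤
      fe_sz (fun z : Bool × C => w z.2) (fe_L ED EB EA) := by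
    apply fe_friend (fun z : Bool × C => w z.2) (fun z => hw z.2)
    · rintro ⟨p, a⟩ ⟨q, b⟩ ⟨r, c⟩ h1 h2
      cases p <;> cases q <;> cases r
      · exact f6 a b c h1 h2
      · exact f4 a b c h1 h2
      · exact f9 a b c h1 h2
      · exact f8 a b c h1 h2
      · exact f9 b a c h2 h1
      · exact f8 b a c h2 h1
      · exact f3 a b c h1 h2
      · exact f2 a b c h1 h2
    · rintro ⟨p, a⟩ ⟨q, b⟩ ⟨r, c⟩ h1 h2
      cases p <;> cases q <;> cases r
      · exact f5 a b c h1 h2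
      · exact f4 a b c h1 h2
      · exact f10 a b c h1 h2
      · exact f7 a b c h1 h2
      · exact f10 b a c h2 h1
      · exact f7 b a c h2 h1
      · exact f3 a b c h1 h2
      · exact f1 a b c h1 h2
  rw [fe_sz_L, fe_sz_L] at i1
  rw [fe_ms, fe_ms]
  have e1 : fe_sz w D + fe_sz w B + fe_sz w A ≤ fe_sz w ED + fe_sz w EB + fe_sz w EA := by
    linarith
  rw [hD, hB, hA, hED, hEB, hEA] at e1
  exact e1

end Pool.Agent.H19.Pal
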