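import Pool.Agent.H19.Pal.Defs

set_option autoImplicit false

namespace Pool.Agent.H19.Pal

/-- Adding a colour whose profile is `Linked` keeps the palette `K_4`-free.
Proof: case analysis over which of the six colours are `none`; a triple of `ext T P` contains at most
one `none`, so at most one colour or two OPPOSITE colours (a|f, b|e, c|d) are `none`; each `none` colour
gives two elements of `P`, replace it by the common old colour given by `Linked`. -/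
theorem ext_K4Free {C : Type} {T : C → C → C → Prop} {P : Fin 3 → C → C → Prop}
    (hT : K4Free T) (hP : Linked T P) : K4Free (ext T P) := by
  intro a b c d e f h1 h2 h3 h4
  rcases a with _ | a <;> rcases b with _ | b <;> rcases c with _ | c <;> rcases d with _ | d <;>
    rcases e with _ | e <;> rcases f with _ | f <;> first
    | exact False.elim h1
    | exact False.elim h2
    | exact False.elim h3
    | exact False.elim h4
    | exact hT _ _ _ _ _ _ h1 h2 h3 h4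
    | (obtain ⟨x, hx1, hx2⟩ := hP 0 _ _ 0 _ _ h1 h2
       exact hT x _ _ _ _ _ hx1 hx2 h3 h4)
    | (obtain ⟨x, hx1, hx2⟩ := hP 1 _ _ 0 _ _ h1 h3
       exact hT _ x _ _ _ _ hx1 h2 hx2 h4)
    | (obtain ⟨x, hx1, hx2⟩ := hP 2 _ _ 0 _ _ h1 h4
       exact hT _ _ x _ _ _ hx1 h2 h3 hx2)
    | (obtain ⟨x, hx1, hx2⟩ := hP 1 _ _ 1 _ _ h2 h3
       exact hT _ _ _ x _ _ h1 hx1 hx2 h4)
    | (obtain ⟨x, hx1, hx2⟩ := hP 2 _ _ 1 _ _ h2 h4
       exact hT _ _ _ _ x _ h1 hx1 h3 hx2)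
    | (obtain ⟨x, hx1, hx2⟩ := hP 2 _ _ 2 _ _ h3 h4
       exact hT _ _ _ _ _ x h1 h2 hx1 hx2)
    | (obtain ⟨x, hx1, hx2⟩ := hP 0 _ _ 0 _ _ h1 h2
       obtain ⟨y, hy1, hy2⟩ := hP 2 _ _ 2 _ _ h3 h4
       exact hT x _ _ _ _ y hx1 hx2 hy1 hy2)
    | (obtain ⟨x, hx1, hx2⟩ := hP 1 _ _ 0 _ _ h1 h3
       obtain ⟨y, hy1, hy2⟩ := hP 2 _ _ 1 _ _ h2 h4
       exact hT _ x _ _ y _ hx1 hy1 hx2 hy2)
    | (obtain ⟨x, hx1, hx2⟩ := hP 2 _ _ 0 _ _ h1 h4
       obtain ⟨y, hy1, hy2⟩ := hP 1 _ _ 1 _ _ h2 h3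
       exact hT _ _ x y _ _ hx1 hy1 hy2 hx2)

end Pool.Agent.H19.Pal
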