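import Mathlib

set_option autoImplicit false

namespace Pool.Agent.H19.Pal

/-- Suppose `P > 3δ+η` and take `t = η/12 ≤ 1/4`:
`(1-t)^2 ((1-t)δ + tP) > (1-t)^2 (δ(1+2t) + tη) ≥ δ - 3t^2 + (9/16) t η ≥ δ + η^2/40`. -/
theorem poly {δ P ε η : ℝ} (h0 : 0 ≤ δ) (h1 : δ ≤ 1) (hη : 0 < η) (hη3 : η ≤ 3)
    (hε : ε ≤ η ^ 2 / 40)
    (h : ∀ t : ℝ, 0 ≤ t → t ≤ 1 → (1 - t) ^ 3 * δ + t * (1 - t) ^ 2 * P ≤ δ + ε) :
    P ≤ 3 * δ + η := by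
  by_contra hP
  push Not at hP
  obtain ⟨t, ht⟩ : ∃ t : ℝ, t = η / 12 := ⟨_, rfl⟩
  have ht0 : 0 < t := by rw [ht]; linarith
  have ht1 : t ≤ 1 / 4 := by rw [ht]; linarith
  have hη' : η = 12 * t := by rw [ht]; ring
  have h2 := h t ht0.le (by linarith)
  have h3 : 0 < t * (1 - t) ^ 2 := by
    have : 0 < 1 - t := by linarith
    positivity
  have h4 : t * (1 - t) ^ 2 * (3 * δ + η) < t * (1 - t) ^ 2 * P :=
    mul_lt_mul_of_pos_left hP h3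
  have h5 : (1 - t) ^ 3 * δ + t * (1 - t) ^ 2 * (3 * δ + η) =
      δ - 3 * t ^ 2 * δ + 2 * t ^ 3 * δ + t * (1 - t) ^ 2 * η := by ring
  have h6 : 3 * t ^ 2 * δ ≤ 3 * t ^ 2 := by
    have : 0 ≤ 3 * t ^ 2 := by positivity
    nlinarith
  have h7 : 0 ≤ 2 * t ^ 3 * δ := by positivity
  have h8 : 9 / 16 ≤ (1 - t) ^ 2 := by nlinarith
  have h9 : 27 / 4 * t ^ 2 ≤ t * (1 - t) ^ 2 * η := by
    rw [hη']
    have : 0 ≤ 12 * t ^ 2 * ((1 - t) ^ 2 - 9 / 16) := by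
      have : 0 ≤ (1 - t) ^ 2 - 9 / 16 := by linarith
      positivity
    nlinarith
  have h10 : ε ≤ 144 * t ^ 2 / 40 := by
    calc ε ≤ η ^ 2 / 40 := hε
      _ = 144 * t ^ 2 / 40 := by rw [hη']; ring
  have h11 : 0 < t ^ 2 := by positivity
  nlinarith

end Pool.Agent.H19.Pal
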