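import Pool.Agent.H19.Pal.Defs
import Pool.Agent.H19.Pal.Poly

set_option autoImplicit false

namespace Pool.Agent.H19.Pal

/-- compactness of the simplex -/
theorem exists_opt {C : Type} [Fintype C] [Nonempty C] (T : C → C → C → Prop) :
    ∃ w : C → ℝ, IsWt w ∧ ∀ w' : C → ℝ, IsWt w' → dens T w' ≤ dens T w := by
  have hcont : Continuous (fun w : C → ℝ => dens T w) := by
    unfold dens
    fun_prop
  have hne : (stdSimplex ℝ C).Nonempty := by
    classical
    obtain ⟨c⟩ := (inferInstance : Nonempty C)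
    exact ⟨_, single_mem_stdSimplex ℝ c⟩
  obtain ⟨w, hw, hmax⟩ := (isCompact_stdSimplex (𝕜 := ℝ) C).exists_isMaxOn hne hcont.continuousOn
  refine ⟨w, ⟨hw.1, hw.2⟩, fun w' hw' => ?_⟩
  exact hmax (show w' ∈ stdSimplex ℝ C from ⟨hw'.1, hw'.2⟩)

theorem kkt_ms {C : Type} [Fintype C] (T : C → C → C → Prop) (w : C → ℝ) (y : C) :
    ms w (prof T y) = (∑ b, ∑ c, w b * w c * ind (T y b c)) +
      (∑ a, ∑ c, w a * w c * ind (T a y c)) + ∑ a, ∑ b, w a * w b * ind (T a b y) := by
  unfold ms md
  rw [Fin.sum_univ_three]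
  rfl

/-- `Σ_y w_y D(y) = 3 δ`. -/
theorem sum_deg {C : Type} [Fintype C] (T : C → C → C → Prop) (w : C → ℝ) :
    ∑ y, w y * ms w (prof T y) = 3 * dens T w := by
  have h1 : ∑ y, w y * (∑ b, ∑ c, w b * w c * ind (T y b c)) = dens T w := by
    unfold dens
    refine Finset.sum_congr rfl fun a _ => ?_
    rw [Finset.mul_sum]
    refine Finset.sum_congr rfl fun b _ => ?_
    rw [Finset.mul_sum]
    refine Finset.sum_congr rfl fun c _ => ?_
    ring
  have h2 : ∑ y, w y * (∑ a, ∑ c, w a * w c * ind (T a y c)) = dens T w := by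
    unfold dens
    rw [Finset.sum_comm (s := Finset.univ) (t := Finset.univ)
      (f := fun a b => ∑ c, w a * w b * w c * ind (T a b c))]
    refine Finset.sum_congr rfl fun b _ => ?_
    rw [Finset.mul_sum]
    refine Finset.sum_congr rfl fun a _ => ?_
    rw [Finset.mul_sum]
    refine Finset.sum_congr rfl fun c _ => ?_
    ring
  have h3 : ∑ y, w y * (∑ a, ∑ b, w a * w b * ind (T a b y)) = dens T w := by
    unfold dens
    have e : ∀ a, ∑ b, ∑ c, w a * w b * w c * ind (T a b c) =
        ∑ c, ∑ b, w a * w b * w c * ind (T a b c) := fun a => Finset.sum_comm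
    rw [Finset.sum_congr rfl (fun a _ => e a)]
    rw [Finset.sum_comm (s := Finset.univ) (t := Finset.univ)
      (f := fun a c => ∑ b, w a * w b * w c * ind (T a b c))]
    refine Finset.sum_congr rfl fun c _ => ?_
    rw [Finset.mul_sum]
    refine Finset.sum_congr rfl fun a _ => ?_
    rw [Finset.mul_sum]
    refine Finset.sum_congr rfl fun b _ => ?_
    ring
  have h4 : ∑ y, w y * ms w (prof T y) =
      ∑ y, w y * (∑ b, ∑ c, w b * w c * ind (T y b c)) +
      ∑ y, w y * (∑ a, ∑ c, w a * w c * ind (T a y c)) +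
      ∑ y, w y * (∑ a, ∑ b, w a * w b * ind (T a b y)) := by
    rw [← Finset.sum_add_distrib, ← Finset.sum_add_distrib]
    refine Finset.sum_congr rfl fun y _ => ?_
    rw [kkt_ms]
    ring
  rw [h4, h1, h2, h3]
  ring

/-- perturbation towards `y`: termwise `(u_a+v_a)(u_b+v_b)(u_c+v_c) ≥ u_a u_b u_c + v_a u_b u_c +
u_a v_b u_c + u_a u_b v_c` with `u = (1-t) w`, `v = t 1_y`. -/
theorem dens_perturb {C : Type} [Fintype C] (T : C → C → C → Prop) {w : C → ℝ}
    (hw : ∀ c, 0 ≤ w c) (y : C) {t : ℝ} (h0 : 0 ≤ t) (h1 : t ≤ 1) :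
    (1 - t) ^ 3 * dens T w + t * (1 - t) ^ 2 * ms w (prof T y) ≤
      dens T (fun c => (1 - t) * w c + (open Classical in if c = y then t else 0)) := by
  classical
  obtain ⟨u, hu⟩ : ∃ u : C → ℝ, u = fun c => (1 - t) * w c := ⟨_, rfl⟩
  obtain ⟨v, hv⟩ : ∃ v : C → ℝ, v = fun c => (open Classical in if c = y then t else 0) :=
    ⟨_, rfl⟩
  have hu0 : ∀ c, 0 ≤ u c := by
    intro c
    rw [hu]
    exact mul_nonneg (by linarith) (hw c)
  have hv0 : ∀ c, 0 ≤ v c := by
    intro c
    rw [hv]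
    dsimp only
    split_ifs
    · exact h0
    · exact le_refl _
  have hvy : v y = t := by
    rw [hv]
    simp
  have hvn : ∀ c, c ≠ y → v c = 0 := by
    intro c hc
    rw [hv]
    simp [hc]
  have hsum : (fun c => (1 - t) * w c + (open Classical in if c = y then t else 0)) =
      fun c => u c + v c := by rw [hu, hv]
  rw [hsum]
  have hA : ∑ a, ∑ b, ∑ c, u a * u b * u c * ind (T a b c) = (1 - t) ^ 3 * dens T w := by
    unfold dens
    rw [Finset.mul_sum]
    refine Finset.sum_congr rfl fun a _ => ?_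
    rw [Finset.mul_sum]
    refine Finset.sum_congr rfl fun b _ => ?_
    rw [Finset.mul_sum]
    refine Finset.sum_congr rfl fun c _ => ?_
    rw [hu]
    ring
  have hB : ∑ a, ∑ b, ∑ c, v a * u b * u c * ind (T a b c) =
      t * (1 - t) ^ 2 * ∑ b, ∑ c, w b * w c * ind (T y b c) := by
    rw [Finset.sum_eq_single y]
    · rw [Finset.mul_sum]
      refine Finset.sum_congr rfl fun b _ => ?_
      rw [Finset.mul_sum]
      refine Finset.sum_congr rfl fun c _ => ?_
      rw [hvy, hu]
      ring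
    · intro a _ ha
      simp [hvn a ha]
    · intro h
      exact absurd (Finset.mem_univ y) h
  have hC : ∑ a, ∑ b, ∑ c, u a * v b * u c * ind (T a b c) =
      t * (1 - t) ^ 2 * ∑ a, ∑ c, w a * w c * ind (T a y c) := by
    rw [Finset.mul_sum]
    refine Finset.sum_congr rfl fun a _ => ?_
    rw [Finset.sum_eq_single y]
    · rw [Finset.mul_sum]
      refine Finset.sum_congr rfl fun c _ => ?_
      rw [hvy, hu]
      ring
    · intro b _ hb
      simp [hvn b hb]
    · intro h
      exact absurd (Finset.mem_univ y) h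
  have hD : ∑ a, ∑ b, ∑ c, u a * u b * v c * ind (T a b c) =
      t * (1 - t) ^ 2 * ∑ a, ∑ b, w a * w b * ind (T a b y) := by
    rw [Finset.mul_sum]
    refine Finset.sum_congr rfl fun a _ => ?_
    rw [Finset.mul_sum]
    refine Finset.sum_congr rfl fun b _ => ?_
    rw [Finset.sum_eq_single y]
    · rw [hvy, hu]
      ring
    · intro c _ hc
      simp [hvn c hc]
    · intro h
      exact absurd (Finset.mem_univ y) h
  have hlow : ∑ a, ∑ b, ∑ c, (u a * u b * u c * ind (T a b c) + v a * u b * u c * ind (T a b c) +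
      u a * v b * u c * ind (T a b c) + u a * u b * v c * ind (T a b c)) ≤
      dens T (fun c => u c + v c) := by
    unfold dens
    refine Finset.sum_le_sum fun a _ => Finset.sum_le_sum fun b _ => Finset.sum_le_sum
      fun c _ => ?_
    have hi := ind_nonneg (T a b c)
    have e1 : 0 ≤ v a * v b * u c * ind (T a b c) :=
      mul_nonneg (mul_nonneg (mul_nonneg (hv0 a) (hv0 b)) (hu0 c)) hi
    have e2 : 0 ≤ v a * u b * v c * ind (T a b c) :=
      mul_nonneg (mul_nonneg (mul_nonneg (hv0 a) (hu0 b)) (hv0 c)) hi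
    have e3 : 0 ≤ u a * v b * v c * ind (T a b c) :=
      mul_nonneg (mul_nonneg (mul_nonneg (hu0 a) (hv0 b)) (hv0 c)) hi
    have e4 : 0 ≤ v a * v b * v c * ind (T a b c) :=
      mul_nonneg (mul_nonneg (mul_nonneg (hv0 a) (hv0 b)) (hv0 c)) hi
    nlinarith
  refine le_trans (le_of_eq ?_) hlow
  simp only [Finset.sum_add_distrib]
  rw [hA, hB, hC, hD, kkt_ms]
  ring

theorem dens_nonneg {C : Type} [Fintype C] (T : C → C → C → Prop) {w : C → ℝ}
    (hw : ∀ c, 0 ≤ w c) : 0 ≤ dens T w := by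
  unfold dens
  refine Finset.sum_nonneg fun a _ => Finset.sum_nonneg fun b _ => Finset.sum_nonneg
    fun c _ => ?_
  exact mul_nonneg (mul_nonneg (mul_nonneg (hw a) (hw b)) (hw c)) (ind_nonneg _)

theorem dens_le_one {C : Type} [Fintype C] (T : C → C → C → Prop) {w : C → ℝ}
    (hw : IsWt w) : dens T w ≤ 1 := by
  have h1 : dens T w ≤ ∑ a, ∑ b, ∑ c, w a * w b * w c := by
    unfold dens
    refine Finset.sum_le_sum fun a _ => Finset.sum_le_sum fun b _ => Finset.sum_le_sum
      fun c _ => ?_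
    exact mul_le_of_le_one_right (mul_nonneg (mul_nonneg (hw.1 a) (hw.1 b)) (hw.1 c))
      (ind_le_one _)
  refine h1.trans (le_of_eq ?_)
  simp only [← Finset.mul_sum, ← Finset.sum_mul, hw.2]
  norm_num

theorem kkt_le {C : Type} [Fintype C] (T : C → C → C → Prop) {w : C → ℝ} (hw : IsWt w)
    (hopt : ∀ w' : C → ℝ, IsWt w' → dens T w' ≤ dens T w) (y : C) :
    ms w (prof T y) ≤ 3 * dens T w := by
  by_contra hcon
  rw [not_le] at hcon
  obtain ⟨η, hη⟩ : ∃ η : ℝ, η = min 3 ((ms w (prof T y) - 3 * dens T w) / 2) := ⟨_, rfl⟩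
  have hη0 : 0 < η := by
    rw [hη]
    exact lt_min (by norm_num) (by linarith)
  have hη3 : η ≤ 3 := by
    rw [hη]
    exact min_le_left _ _
  have hη2 : η ≤ (ms w (prof T y) - 3 * dens T w) / 2 := by
    rw [hη]
    exact min_le_right _ _
  have h := poly (δ := dens T w) (P := ms w (prof T y)) (ε := 0) (η := η)
    (dens_nonneg T hw.1) (dens_le_one T hw) hη0 hη3 (by positivity) (by
      intro t h0 h1
      rw [add_zero]
      refine (dens_perturb T hw.1 y h0 h1).trans (hopt _ ⟨?_, ?_⟩)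
      · intro c
        have := mul_nonneg (sub_nonneg.2 h1) (hw.1 c)
        dsimp only
        split_ifs
        · linarith
        · linarith
      · rw [Finset.sum_add_distrib, ← Finset.mul_sum, hw.2, Finset.sum_eq_single y]
        · simp
        · intro b _ hb
          simp [hb]
        · intro hb
          exact absurd (Finset.mem_univ y) hb)
  linarith

/-- KKT: on the support the degree is `3 δ` (from `kkt_le` and `sum_deg`). -/
theorem kkt_eq {C : Type} [Fintype C] (T : C → C → C → Prop) {w : C → ℝ} (hw : IsWt w)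
    (hopt : ∀ w' : C → ℝ, IsWt w' → dens T w' ≤ dens T w) (y : C) (hy : 0 < w y) :
    ms w (prof T y) = 3 * dens T w := by
  have h1 : ∑ z, w z * (3 * dens T w - ms w (prof T z)) = 0 := by
    simp only [mul_sub]
    rw [Finset.sum_sub_distrib, sum_deg, ← Finset.sum_mul, hw.2]
    ring
  have h2 : ∀ z ∈ Finset.univ, 0 ≤ w z * (3 * dens T w - ms w (prof T z)) := by
    intro z _
    exact mul_nonneg (hw.1 z) (sub_nonneg.2 (kkt_le T hw hopt z))
  have h3 := (Finset.sum_eq_zero_iff_of_nonneg h2).1 h1 y (Finset.mem_univ y)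
  rcases mul_eq_zero.1 h3 with h4 | h4
  · exact absurd h4 hy.ne'
  · linarith

end Pool.Agent.H19.Pal
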