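import Pool.Agent.H19.Pal.Defs

set_option autoImplicit false

namespace Pool.Agent.H19.Pal

/-- If `p i`, `q j`, `r i j` are never all true then `Σ w p + Σ w q + ΣΣ w w r ≤ 2`
(from `st + r ≤ 1` and `st ≥ s+t-1` on `[0,1]`). -/
theorem pair_le {C : Type} [Fintype C] {w : C → ℝ} (hw : IsWt w) (p q : C → Prop)
    (r : C → C → Prop) (h : ∀ i j, p i → q j → r i j → False) :
    ∑ i, w i * ind (p i) + ∑ j, w j * ind (q j) + ∑ i, ∑ j, w i * w j * ind (r i j) ≤ 2 := by
  obtain ⟨hw0, hw1⟩ := hw
  have hs : ∑ i, w i * ind (p i) ≤ 1 := by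
    rw [← hw1]
    exact Finset.sum_le_sum fun i _ => mul_le_of_le_one_right (hw0 i) (ind_le_one _)
  have ht : ∑ j, w j * ind (q j) ≤ 1 := by
    rw [← hw1]
    exact Finset.sum_le_sum fun i _ => mul_le_of_le_one_right (hw0 i) (ind_le_one _)
  have hr : ∑ i, ∑ j, w i * w j * ind (r i j) ≤
      1 - (∑ i, w i * ind (p i)) * (∑ j, w j * ind (q j)) := by
    have h1 : (1 : ℝ) - (∑ i, w i * ind (p i)) * (∑ j, w j * ind (q j)) =
        ∑ i, ∑ j, w i * w j * (1 - ind (p i) * ind (q j)) := by
      have h2 : ∑ i, ∑ j, w i * w j * (1 - ind (p i) * ind (q j)) =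
          (∑ i, w i) * (∑ j, w j) - (∑ i, w i * ind (p i)) * (∑ j, w j * ind (q j)) := by
        rw [Finset.sum_mul_sum, Finset.sum_mul_sum, ← Finset.sum_sub_distrib]
        refine Finset.sum_congr rfl fun i _ => ?_
        rw [← Finset.sum_sub_distrib]
        refine Finset.sum_congr rfl fun j _ => ?_
        ring
      rw [h2, hw1, mul_one]
    rw [h1]
    refine Finset.sum_le_sum fun i _ => Finset.sum_le_sum fun j _ => ?_
    apply mul_le_mul_of_nonneg_left _ (mul_nonneg (hw0 i) (hw0 j))
    by_cases hp : p i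
    · by_cases hq : q j
      · rw [ind_of_true hp, ind_of_true hq, ind_of_false (fun hr => h i j hp hq hr)]
        norm_num
      · rw [ind_of_false hq, mul_zero, sub_zero]
        exact ind_le_one _
    · rw [ind_of_false hp, zero_mul, sub_zero]
      exact ind_le_one _
  nlinarith [mul_nonneg (sub_nonneg.2 hs) (sub_nonneg.2 ht)]

theorem lemR_pos0 {C : Type} [Fintype C] (T : C → C → C → Prop) (w g : C → ℝ) :
    ∑ a, ∑ b, ∑ c, w a * w b * w c * ind (T a b c) * g a =
      ∑ y, w y * md w (prof T y) 0 * g y := by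
  refine Finset.sum_congr rfl fun y _ => ?_
  unfold md
  rw [Finset.mul_sum, Finset.sum_mul]
  refine Finset.sum_congr rfl fun b _ => ?_
  rw [Finset.mul_sum, Finset.sum_mul]
  refine Finset.sum_congr rfl fun c _ => ?_
  show w y * w b * w c * ind (T y b c) * g y = w y * (w b * w c * ind (T y b c)) * g y
  ring

theorem lemR_pos1 {C : Type} [Fintype C] (T : C → C → C → Prop) (w g : C → ℝ) :
    ∑ a, ∑ b, ∑ c, w a * w b * w c * ind (T a b c) * g b =
      ∑ y, w y * md w (prof T y) 1 * g y := by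
  rw [Finset.sum_comm]
  refine Finset.sum_congr rfl fun y _ => ?_
  unfold md
  rw [Finset.mul_sum, Finset.sum_mul]
  refine Finset.sum_congr rfl fun b _ => ?_
  rw [Finset.mul_sum, Finset.sum_mul]
  refine Finset.sum_congr rfl fun c _ => ?_
  show w b * w y * w c * ind (T b y c) * g y = w y * (w b * w c * ind (T b y c)) * g y
  ring

theorem lemR_pos2 {C : Type} [Fintype C] (T : C → C → C → Prop) (w g : C → ℝ) :
    ∑ a, ∑ b, ∑ c, w a * w b * w c * ind (T a b c) * g c =
      ∑ y, w y * md w (prof T y) 2 * g y := by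
  have h1 : ∑ a, ∑ b, ∑ c, w a * w b * w c * ind (T a b c) * g c =
      ∑ a, ∑ c, ∑ b, w a * w b * w c * ind (T a b c) * g c :=
    Finset.sum_congr rfl fun a _ => Finset.sum_comm
  rw [h1, Finset.sum_comm]
  refine Finset.sum_congr rfl fun y _ => ?_
  unfold md
  rw [Finset.mul_sum, Finset.sum_mul]
  refine Finset.sum_congr rfl fun a _ => ?_
  rw [Finset.mul_sum, Finset.sum_mul]
  refine Finset.sum_congr rfl fun b _ => ?_
  show w a * w b * w y * ind (T a b y) * g y = w y * (w a * w b * ind (T a b y)) * g y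
  ring

/-- averaging an inequality over the triples of the palette, with different functions in the
three positions. -/
theorem lemR_avg {C : Type} [Fintype C] {T : C → C → C → Prop} {w : C → ℝ} (hw : IsWt w)
    (g0 g1 g2 : C → ℝ) (h : ∀ a b c, T a b c → g0 a + g1 b + g2 c ≤ 6) :
    ∑ y, w y * md w (prof T y) 0 * g0 y + ∑ y, w y * md w (prof T y) 1 * g1 y +
      ∑ y, w y * md w (prof T y) 2 * g2 y ≤ 6 * dens T w := by
  rw [← lemR_pos0, ← lemR_pos1, ← lemR_pos2, ← Finset.sum_add_distrib, ← Finset.sum_add_distrib]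
  unfold dens
  rw [Finset.mul_sum]
  refine Finset.sum_le_sum fun a _ => ?_
  rw [← Finset.sum_add_distrib, ← Finset.sum_add_distrib, Finset.mul_sum]
  refine Finset.sum_le_sum fun b _ => ?_
  rw [← Finset.sum_add_distrib, ← Finset.sum_add_distrib, Finset.mul_sum]
  refine Finset.sum_le_sum fun c _ => ?_
  have h1 : w a * w b * w c * ind (T a b c) * g0 a + w a * w b * w c * ind (T a b c) * g1 b +
      w a * w b * w c * ind (T a b c) * g2 c =
      (w a * w b * w c) * (ind (T a b c) * (g0 a + g1 b + g2 c)) := by ring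
  have h2 : 6 * (w a * w b * w c * ind (T a b c)) = (w a * w b * w c) * (ind (T a b c) * 6) := by
    ring
  rw [h1, h2]
  apply mul_le_mul_of_nonneg_left _ (mul_nonneg (mul_nonneg (hw.1 a) (hw.1 b)) (hw.1 c))
  by_cases ht : T a b c
  · rw [ind_of_true ht, one_mul, one_mul]
    exact h a b c ht
  · rw [ind_of_false ht, zero_mul, zero_mul]

theorem lemR_deg (i : Fin 3) {C : Type} [Fintype C] (T : C → C → C → Prop) (w : C → ℝ) :
    ∑ y, w y * md w (prof T y) i = dens T w := by
  have h0 := lemR_pos0 T w (fun _ => 1)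
  have h1 := lemR_pos1 T w (fun _ => 1)
  have h2 := lemR_pos2 T w (fun _ => 1)
  simp only [mul_one] at h0 h1 h2
  unfold dens
  fin_cases i
  · exact h0.symm
  · exact h1.symm
  · exact h2.symm

/-- the same function in the three positions -/
theorem lemR_same {C : Type} [Fintype C] {T : C → C → C → Prop} {w : C → ℝ}
    (hk : ∀ y, w y * ms w (prof T y) = w y * (3 * dens T w)) (g : C → ℝ) :
    ∑ y, w y * md w (prof T y) 0 * g y + ∑ y, w y * md w (prof T y) 1 * g y +
      ∑ y, w y * md w (prof T y) 2 * g y = 3 * dens T w * ∑ y, w y * g y := by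
  rw [← Finset.sum_add_distrib, ← Finset.sum_add_distrib, Finset.mul_sum]
  refine Finset.sum_congr rfl fun y _ => ?_
  have h1 := hk y
  have hs : ms w (prof T y) = md w (prof T y) 0 + md w (prof T y) 1 + md w (prof T y) 2 := by
    simp [ms, Fin.sum_univ_three]
  rw [hs] at h1
  linear_combination g y * h1

/-- Lemma R, first form: `β(x)+γ(x) ≤ 2-δ`.  For `T 1 2 3` (m(a)=Σ_i w_i[T a x i], n(a)=Σ_i w_i[T a i x]):
`α(3)+m(1)+m(2) ≤ 2`, `α(2)+n(1)+m(3) ≤ 2`, `α(1)+n(2)+n(3) ≤ 2`; sum against `w w w [T]` and use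
`w_y D(y) = 3δ w_y`. -/
theorem lemR12 {C : Type} [Fintype C] {T : C → C → C → Prop} (hT : K4Free T) {w : C → ℝ}
    (hw : IsWt w) (hδ : 0 < dens T w)
    (hk : ∀ y, w y * ms w (prof T y) = w y * (3 * dens T w)) (x : C) :
    md w (prof T x) 1 + md w (prof T x) 2 ≤ 2 - dens T w := by
  set al : C → ℝ := fun y => md w (prof T y) 0 with hal
  set m : C → ℝ := fun a => ∑ i, w i * ind (T a x i) with hm
  set n : C → ℝ := fun a => ∑ i, w i * ind (T a i x) with hn
  have hex : ∀ y, al y = ∑ i, ∑ j, w i * w j * ind (T y i j) := fun y => rfl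
  have hkey : ∀ a b c, T a b c → (al a + m a + n a) + (al b + m b + n b) + (al c + m c + n c) ≤ 6 := by
    intro a b c habc
    have h1 := pair_le hw (fun i => T a x i) (fun j => T b x j) (fun i j => T c i j)
      (fun i j h1 h2 h3 => hT a b c x i j habc h1 h2 h3)
    have h2 := pair_le hw (fun i => T a i x) (fun j => T c x j) (fun i j => T b i j)
      (fun i j h1 h2 h3 => hT a b c i x j habc h1 h3 h2)
    have h3 := pair_le hw (fun i => T b i x) (fun j => T c j x) (fun i j => T a i j)
      (fun i j h1 h2 h3 => hT a b c i j x habc h3 h1 h2)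
    rw [← hex] at h1 h2 h3
    change m a + m b + al c ≤ 2 at h1
    change n a + m c + al b ≤ 2 at h2
    change n b + n c + al a ≤ 2 at h3
    linarith
  have h1 := lemR_avg hw (fun y => al y + m y + n y) (fun y => al y + m y + n y)
    (fun y => al y + m y + n y) hkey
  rw [lemR_same hk] at h1
  have h2 : ∑ y, w y * (al y + m y + n y) =
      dens T w + md w (prof T x) 1 + md w (prof T x) 2 := by
    have e1 : ∑ y, w y * al y = dens T w := lemR_deg 0 T w
    have e2 : ∑ y, w y * m y = md w (prof T x) 1 := by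
      unfold md
      refine Finset.sum_congr rfl fun a _ => ?_
      rw [hm, Finset.mul_sum]
      refine Finset.sum_congr rfl fun i _ => ?_
      show w a * (w i * ind (T a x i)) = w a * w i * ind (T a x i)
      ring
    have e3 : ∑ y, w y * n y = md w (prof T x) 2 := by
      unfold md
      refine Finset.sum_congr rfl fun a _ => ?_
      rw [hn, Finset.mul_sum]
      refine Finset.sum_congr rfl fun i _ => ?_
      show w a * (w i * ind (T a i x)) = w a * w i * ind (T a i x)
      ring
    rw [← e1, ← e2, ← e3, ← Finset.sum_add_distrib, ← Finset.sum_add_distrib]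
    refine Finset.sum_congr rfl fun y _ => ?_
    ring
  rw [h2] at h1
  have h3 : dens T w + md w (prof T x) 1 + md w (prof T x) 2 ≤ 2 := by
    have h4 : dens T w * (dens T w + md w (prof T x) 1 + md w (prof T x) 2) ≤ dens T w * 2 := by
      linarith
    exact le_of_mul_le_mul_left h4 hδ
  linarith

/-- mirror image: `α(x)+β(x) ≤ 2-δ` (apply `lemR12` to the reversed palette, or directly). -/
theorem lemR01 {C : Type} [Fintype C] {T : C → C → C → Prop} (hT : K4Free T) {w : C → ℝ}
    (hw : IsWt w) (hδ : 0 < dens T w)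
    (hk : ∀ y, w y * ms w (prof T y) = w y * (3 * dens T w)) (x : C) :
    md w (prof T x) 0 + md w (prof T x) 1 ≤ 2 - dens T w := by
  set T' : C → C → C → Prop := fun a b c => T c b a with hT'
  have hfree : K4Free T' := by
    intro a b c d e f h1 h2 h3 h4
    exact hT f e c d b a h4 h3 h2 h1
  have hswap : ∀ (P Q : C → C → Prop), (∀ a b, P a b ↔ Q b a) →
      ∑ a, ∑ b, w a * w b * ind (P a b) = ∑ a, ∑ b, w a * w b * ind (Q a b) := by
    intro P Q hPQ
    rw [Finset.sum_comm]
    refine Finset.sum_congr rfl fun a _ => Finset.sum_congr rfl fun b _ => ?_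
    have h1 : ind (P b a) = ind (Q a b) := congrArg ind (propext (hPQ b a))
    rw [h1]
    ring
  have hm0 : ∀ y, md w (prof T' y) 0 = md w (prof T y) 2 := fun y =>
    hswap (fun b c => T c b y) (fun a b => T a b y) (fun a b => Iff.rfl)
  have hm1 : ∀ y, md w (prof T' y) 1 = md w (prof T y) 1 := fun y =>
    hswap (fun b c => T c y b) (fun a b => T a y b) (fun a b => Iff.rfl)
  have hm2 : ∀ y, md w (prof T' y) 2 = md w (prof T y) 0 := fun y =>
    hswap (fun b c => T y c b) (fun a b => T y a b) (fun a b => Iff.rfl)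
  have hdens : dens T' w = dens T w := by
    rw [← lemR_deg 0 T' w, ← lemR_deg 2 T w]
    refine Finset.sum_congr rfl fun y _ => ?_
    rw [hm0]
  have hk' : ∀ y, w y * ms w (prof T' y) = w y * (3 * dens T' w) := by
    intro y
    rw [hdens, ← hk y]
    congr 1
    simp only [ms, Fin.sum_univ_three, hm0, hm1, hm2]
    ring
  have h1 := lemR12 hfree hw (by rw [hdens]; exact hδ) hk' x
  rw [hm1, hm2, hdens] at h1
  linarith

/-- third form: `α(x)+γ(x) ≤ 2-δ`.  For `T 1 2 3` (o(a)=Σ_i w_i[T x a i], n(a)=Σ_i w_i[T a i x]):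
`γ(3)+o(1)+o(2) ≤ 2` (b,d,f = 1,2,3; a = x), `β(2)+n(1)+o(3) ≤ 2` (a,d,e = 1,2,3; c = x),
`α(1)+n(2)+n(3) ≤ 2` (a,b,c = 1,2,3; f = x);
sum: `Σ w D (o+n) + Σ w (α²+β²+γ²) ≤ 6δ`, and `Σ w (α²+β²+γ²) ≥ 3δ²` (Cauchy, `Σ w α = δ` etc.). -/
theorem lemR02 {C : Type} [Fintype C] {T : C → C → C → Prop} (hT : K4Free T) {w : C → ℝ}
    (hw : IsWt w) (hδ : 0 < dens T w)
    (hk : ∀ y, w y * ms w (prof T y) = w y * (3 * dens T w)) (x : C) :
    md w (prof T x) 0 + md w (prof T x) 2 ≤ 2 - dens T w := by
  set o : C → ℝ := fun a => ∑ i, w i * ind (T x a i) with ho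
  set n : C → ℝ := fun a => ∑ i, w i * ind (T a i x) with hn
  have hkey : ∀ a b c, T a b c → ((o a + n a) + md w (prof T a) 0) +
      ((o b + n b) + md w (prof T b) 1) + ((o c + n c) + md w (prof T c) 2) ≤ 6 := by
    intro a b c habc
    have h1 := pair_le hw (fun i => T x a i) (fun j => T x b j) (fun i j => T i j c)
      (fun i j h1 h2 h3 => hT x a i b j c h1 h2 habc h3)
    have h2 := pair_le hw (fun i => T a i x) (fun j => T x c j) (fun i j => T i b j)
      (fun i j h1 h2 h3 => hT a i x b c j h1 habc h3 h2)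
    have h3 := pair_le hw (fun i => T b i x) (fun j => T c j x) (fun i j => T a i j)
      (fun i j h1 h2 h3 => hT a b c i j x habc h3 h1 h2)
    change o a + o b + md w (prof T c) 2 ≤ 2 at h1
    change n a + o c + md w (prof T b) 1 ≤ 2 at h2
    change n b + n c + md w (prof T a) 0 ≤ 2 at h3
    linarith
  have h1 := lemR_avg hw (fun y => (o y + n y) + md w (prof T y) 0)
    (fun y => (o y + n y) + md w (prof T y) 1) (fun y => (o y + n y) + md w (prof T y) 2) hkey
  simp only [mul_add, Finset.sum_add_distrib] at h1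
  have hso := lemR_same hk o
  have hsn := lemR_same hk n
  have hjen : ∀ i : Fin 3, dens T w ^ 2 ≤ ∑ y, w y * md w (prof T y) i * md w (prof T y) i := by
    intro i
    have h2 : 0 ≤ ∑ y, w y * (md w (prof T y) i - dens T w) ^ 2 :=
      Finset.sum_nonneg fun y _ => mul_nonneg (hw.1 y) (sq_nonneg _)
    have h3 : ∑ y, w y * (md w (prof T y) i - dens T w) ^ 2 =
        (∑ y, w y * md w (prof T y) i * md w (prof T y) i) -
          2 * dens T w * (∑ y, w y * md w (prof T y) i) + dens T w ^ 2 * ∑ y, w y := by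
      rw [Finset.mul_sum, Finset.mul_sum, ← Finset.sum_sub_distrib, ← Finset.sum_add_distrib]
      refine Finset.sum_congr rfl fun y _ => ?_
      ring
    rw [h3, lemR_deg i T w, hw.2] at h2
    nlinarith
  have j0 := hjen 0
  have j1 := hjen 1
  have j2 := hjen 2
  have e2 : ∑ y, w y * o y = md w (prof T x) 0 := by
    unfold md
    refine Finset.sum_congr rfl fun a _ => ?_
    rw [ho, Finset.mul_sum]
    refine Finset.sum_congr rfl fun i _ => ?_
    show w a * (w i * ind (T x a i)) = w a * w i * ind (T x a i)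
    ring
  have e3 : ∑ y, w y * n y = md w (prof T x) 2 := by
    unfold md
    refine Finset.sum_congr rfl fun a _ => ?_
    rw [hn, Finset.mul_sum]
    refine Finset.sum_congr rfl fun i _ => ?_
    show w a * (w i * ind (T a i x)) = w a * w i * ind (T a i x)
    ring
  rw [e2] at hso
  rw [e3] at hsn
  have h4 : dens T w * (dens T w + md w (prof T x) 0 + md w (prof T x) 2) ≤ dens T w * 2 := by
    nlinarith
  have h5 := le_of_mul_le_mul_left h4 hδ
  linarith

/-- every degree is at least `4δ-2`. -/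
theorem deg_lower {C : Type} [Fintype C] {T : C → C → C → Prop} (hT : K4Free T) {w : C → ℝ}
    (hw : IsWt w) (hδ : 0 < dens T w)
    (hk : ∀ y, w y * ms w (prof T y) = w y * (3 * dens T w)) (x : C) (hx : 0 < w x) (i : Fin 3) :
    4 * dens T w - 2 ≤ md w (prof T x) i := by
  have h3 : ms w (prof T x) = 3 * dens T w := by
    have := hk x
    exact mul_left_cancel₀ (ne_of_gt hx) this
  have h1 := lemR12 hT hw hδ hk x
  have h2 := lemR01 hT hw hδ hk x
  have h4 := lemR02 hT hw hδ hk x
  have hs : ms w (prof T x) = md w (prof T x) 0 + md w (prof T x) 1 + md w (prof T x) 2 := by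
    simp [ms, Fin.sum_univ_three]
  fin_cases i <;> simp <;> linarith

end Pool.Agent.H19.Pal
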