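import Pool.Agent.H19.Pal.Hybrid
import Pool.Agent.H19.Pal.ExtDens
import Pool.Agent.H19.Pal.KKT
import Pool.Agent.H19.Pal.LemR
import Pool.Agent.H19.Pal.Chain
import Pool.Agent.H19.Pal.FullEmpty
import Pool.Agent.H19.Pal.Family

set_option autoImplicit false

namespace Pool.Agent.H19.Pal

/-- all densities of `K_4`-free palettes -/
def Vals : Set ℝ := {v | ∃ (C : Type) (_ : Fintype C) (T : C → C → C → Prop) (w : C → ℝ),
  K4Free T ∧ IsWt w ∧ v = dens T w}

lemma ms_compl {C : Type} [Fintype C] {w : C → ℝ} (hw : IsWt w) (P : Fin 3 → C → C → Prop) :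
    ms w P + ms w (fun i a b => ¬ P i a b) = 3 := by
  have hone : ∀ i : Fin 3, md w P i + md w (fun i a b => ¬ P i a b) i = 1 := by
    intro i
    unfold md
    rw [← Finset.sum_add_distrib]
    have : ∀ a, (∑ b, w a * w b * ind (P i a b)) + (∑ b, w a * w b * ind (¬ P i a b)) = w a := by
      intro a
      rw [← Finset.sum_add_distrib]
      have h2 : ∀ b, w a * w b * ind (P i a b) + w a * w b * ind (¬ P i a b) = w a * w b := by
        intro b
        by_cases h : P i a b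
        · rw [ind_of_true h, ind_of_false (not_not.mpr h)]; ring
        · rw [ind_of_false h, ind_of_true h]; ring
      rw [Finset.sum_congr rfl (fun b _ => h2 b), ← Finset.mul_sum, hw.2, mul_one]
    rw [Finset.sum_congr rfl (fun a _ => this a), hw.2]
  unfold ms
  rw [← Finset.sum_add_distrib, Finset.sum_congr rfl (fun i _ => hone i)]
  simp

/-- PALETTE THEOREM. -/
theorem palette_le_half {C : Type} [Fintype C] {T : C → C → C → Prop} (hT : K4Free T) {w : C → ℝ}
    (hw : IsWt w) : dens T w ≤ 1 / 2 := by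
  by_contra hcon
  push Not at hcon
  have hbdd : BddAbove Vals := by
    refine ⟨1, ?_⟩
    rintro v ⟨C', _, T', w', _, hw', rfl⟩
    exact dens_le_one T' hw'
  have hmem : dens T w ∈ Vals := ⟨C, inferInstance, T, w, hT, hw, rfl⟩
  set L : ℝ := sSup Vals with hL
  have hL1 : 1 / 2 < L := lt_of_lt_of_le hcon (le_csSup hbdd hmem)
  have hL2 : L ≤ 1 := by
    apply csSup_le ⟨_, hmem⟩
    rintro v ⟨C', _, T', w', _, hw', rfl⟩
    exact dens_le_one T' hw'
  set δ1 : ℝ := (L + 1 / 2) / 2 with hδ1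
  have hδ1a : 1 / 2 < δ1 := by rw [hδ1]; linarith
  have hδ1b : δ1 < L := by rw [hδ1]; linarith
  set ρ : ℝ := 4 * δ1 - 2 with hρdef
  have hρ : 0 < ρ := by rw [hρdef]; linarith
  have hρ1 : ρ ≤ 1 := by rw [hρdef, hδ1]; linarith
  obtain ⟨m, hm1, hm⟩ := exists_m ρ hρ hρ1
  have hmpos : (0 : ℝ) < (m : ℝ) := by exact_mod_cast hm1
  have hm1' : (1 : ℝ) ≤ (m : ℝ) := by exact_mod_cast hm1
  set η : ℝ := (6 * δ1 - 3) / (4 * m) with hηdef
  have hη : 0 < η := by
    rw [hηdef]; apply div_pos <;> linarith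
  have hη4 : 4 * m * η = 6 * δ1 - 3 := by
    rw [hηdef]; field_simp
  have hη3 : η ≤ 3 := by
    rw [hηdef, div_le_iff₀ (by linarith)]
    nlinarith
  set ε : ℝ := η ^ 2 / 40 with hεdef
  have hε : 0 < ε := by rw [hεdef]; positivity
  obtain ⟨v, hv, hvlt⟩ : ∃ v ∈ Vals, L - min ε (L - δ1) < v := by
    apply exists_lt_of_lt_csSup ⟨_, hmem⟩
    have : 0 < min ε (L - δ1) := lt_min hε (by linarith)
    linarith
  obtain ⟨C1, inst1, T1, w1, hT1, hw1, rfl⟩ := hv
  haveI : Nonempty C1 := by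
    by_contra hne
    rw [not_nonempty_iff] at hne
    have := hw1.2
    simp at this
  obtain ⟨w2, hw2, hopt⟩ := exists_opt T1
  set δ : ℝ := dens T1 w2 with hδ
  have hδge : dens T1 w1 ≤ δ := hopt w1 hw1
  have hδL : δ ≤ L := le_csSup hbdd ⟨C1, inst1, T1, w2, hT1, hw2, rfl⟩
  have hmin1 : min ε (L - δ1) ≤ ε := min_le_left _ _
  have hmin2 : min ε (L - δ1) ≤ L - δ1 := min_le_right _ _
  have hδε : L ≤ δ + ε := by linarith
  have hδδ1 : δ1 ≤ δ := by linarith
  have hδpos : 0 < δ := by linarith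
  have hδle1 : δ ≤ 1 := by linarith
  have hkk : ∀ y, 0 < w2 y → ms w2 (prof T1 y) = 3 * δ := fun y hy => kkt_eq T1 hw2 hopt y hy
  have hk : ∀ y, w2 y * ms w2 (prof T1 y) = w2 y * (3 * dens T1 w2) := by
    intro y
    rcases (hw2.1 y).lt_or_eq with h | h
    · rw [hkk y h]
    · rw [← h]; simp
  have hlink : ∀ P : Fin 3 → C1 → C1 → Prop, Linked T1 P → ms w2 P ≤ 3 * δ + η := by
    intro P hP
    apply poly (le_of_lt hδpos) hδle1 hη hη3 (le_of_eq hεdef)
    intro t ht0 ht1
    rw [hδ, ← dens_ext T1 P w2 t]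
    have : dens (ext T1 P) (wext w2 t) ≤ L :=
      le_csSup hbdd ⟨Option C1, inferInstance, ext T1 P, wext w2 t, ext_K4Free hT1 hP,
        wext_isWt hw2 ht0 ht1, rfl⟩
    linarith
  obtain ⟨l, hlen, hlpos, hself⟩ := exists_family w2 hw2 ρ hρ hρ1 m hm (fun i x a b => prof T1 x i a b)
    (by
      intro i x hx
      have := deg_lower hT1 hw2 hδpos hk x hx i
      have h2 : ρ ≤ md w2 (prof T1 x) i := by
        refine le_trans ?_ this
        rw [hρdef]; linarith
      exact h2)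
  have hlne : l ≠ [] := by
    intro h
    rw [h] at hlen
    simp at hlen
    omega
  have hch := chain T1 w2 δ η (le_of_lt hη) hlink l hlne (fun x hx => hkk x (hlpos x hx))
  have hfe := full_le_empty hT1 w2 hw2.1 (fun x => x ∈ l)
    (by
      intro x hx
      obtain ⟨a, ha, b, hb, h⟩ := hself x hx 0
      exact ⟨a, b, ha, hb, h⟩)
    (by
      intro x hx
      obtain ⟨a, ha, b, hb, h⟩ := hself x hx 1
      exact ⟨a, b, ha, hb, h⟩)
    (by
      intro x hx
      obtain ⟨a, ha, b, hb, h⟩ := hself x hx 2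
      exact ⟨a, b, ha, hb, h⟩)
  have hF : ms w2 (fun i a b => ∀ x, x ∈ l → prof T1 x i a b) = ms w2 (Fl T1 l) := rfl
  have hE : ms w2 (fun i a b => ∀ x, x ∈ l → ¬ prof T1 x i a b) =
      ms w2 (fun i a b => ¬ Ul T1 l i a b) := by
    congr 1
    funext i a b
    apply propext
    unfold Ul
    push Not
    rfl
  rw [hF, hE] at hfe
  have hc := ms_compl hw2 (Ul T1 l)
  have hlen' : (l.length : ℝ) = 2 * m := by rw [hlen]; push_cast; ring
  rw [hlen'] at hch
  nlinarith

end Pool.Agent.H19.Pal
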